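import Pool.Agent.Q187.Agg.Main

/-!
# MP_850444_an: under PDLC at most five good aggregations are needed
-/

namespace Pool.Agent.Results.MP_850444_an.FiveSuffice

open Q187.Agg

/-- Three quadratic functions on `ℝⁿ`, `n ≥ 3`, with the PDLC condition: whenever `conv(S)` is the
intersection of finitely many sets `S_λ` with `λ` a good aggregation, it is the intersection of at
most five such sets.  So `N(S) = 6` never occurs. -/
theorem result : ∀ n : ℕ, 3 ≤ n → ∀ (A : Fin 3 → Matrix (Fin n) (Fin n) ℝ)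
    (b : Fin 3 → Fin n → ℝ) (c : Fin 3 → ℝ), (∀ i, (A i).IsSymm) → PDLC A b c →
    ∀ F : Finset (Fin 3 → ℝ), (∀ l ∈ F, Good A b c l) →
      convexHull ℝ (Sset A b c) = ⋂ l ∈ F, Slam A b c l →
      ∃ H : Finset (Fin 3 → ℝ), H.card ≤ 5 ∧ (∀ l ∈ H, Good A b c l) ∧
        convexHull ℝ (Sset A b c) = ⋂ l ∈ H, Slam A b c l :=
  fun _ hn _ _ _ hA hP F hF hconv => five_suffice hn hA hP F hF hconv

end Pool.Agent.Results.MP_850444_an.FiveSuffice
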